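import Pool.Agent.N765.QU.FINA

/-!
Project QU (helper728), part FIN: the final theorem `FinalU` from `BLu`, `TLSu`, `LWBu`, `AVSu`.
-/

set_option autoImplicit false

namespace Pool.Agent.N765.QU

open Finset Pool.Agent.N728.QU
open Pool.Agent.N728.QL (lp)
open Pool.Agent.N199.QL (hh hh_step hh_ge hh_le hh_up cover markov ev_pow ev_log ev_ge)

noncomputable section

theorem V_up {τ c : ℤ} (hτ : τ = 1 ∨ τ = -1) {h m H K : ℕ} (hh : h ≤ H) (hm : m ≤ K * H)
    (hc : c.natAbs ≤ K * H ^ 2) : ((V τ c h m : ℤ) : ℝ) ≤ (((K : ℝ) + 1) * H) ^ 2 := by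
  rw [V_cast]
  have h1 : (h : ℝ) ^ 2 ≤ (H : ℝ) ^ 2 := by
    have : (h : ℝ) ≤ H := by exact_mod_cast hh
    gcongr
  have h2 : (m : ℝ) ^ 2 ≤ ((K : ℝ) * H) ^ 2 := by
    have : (m : ℝ) ≤ (K : ℝ) * H := by exact_mod_cast hm
    gcongr
  have h3 : (c : ℝ) ≤ (K : ℝ) * (H : ℝ) ^ 2 := by
    have e1 : c ≤ (c.natAbs : ℤ) := Int.le_natAbs
    have e2 : (c.natAbs : ℤ) ≤ ((K * H ^ 2 : ℕ) : ℤ) := by exact_mod_cast hc
    have e3 : (c : ℝ) ≤ ((K * H ^ 2 : ℕ) : ℝ) := by exact_mod_cast e1.trans e2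
    push_cast at e3
    exact e3
  have h4 : 0 ≤ (h : ℝ) ^ 2 := by positivity
  have h5 : 0 ≤ (m : ℝ) ^ 2 := by positivity
  have h6 : 0 ≤ (K : ℝ) * (H : ℝ) ^ 2 := by positivity
  have h7 : 0 ≤ ((K : ℝ) * H) ^ 2 := by positivity
  have h8 : 0 ≤ (H : ℝ) ^ 2 := by positivity
  have h9 : (((K : ℝ) + 1) * H) ^ 2 = ((K : ℝ) * H) ^ 2 + 2 * ((K : ℝ) * (H : ℝ) ^ 2) + (H : ℝ) ^ 2 := by
    ring
  rw [h9]
  rcases hτ with rfl | rfl
  · push_cast
    linarith
  · push_cast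
    linarith

/-- one `h` -/
theorem one_V {τ c : ℤ} (hτ : τ = 1 ∨ τ = -1) {h H K M q : ℕ} (hq : 1 ≤ q) (hhH : h ≤ H)
    (hMK : M ≤ K * H) (hc : c.natAbs ≤ K * H ^ 2) {S S' E l g e : ℝ} (he0 : 0 < e)
    (hS : 0 ≤ S) (hE : 0 ≤ E) (hH : 1 ≤ H) (hl : l = Real.log H) (hl0 : 0 < l)
    (he1 : e ≤ 1) (hg : g = 2 * Real.log ((K : ℝ) + 1) - 2 * Real.log e) (hgl : g ≤ l)
    (hM : |∑ m ∈ Icc 1 M, lp (V τ c h m) -
      S * (((Icc 1 M).filter fun m => 2 ≤ V τ c h m).card : ℝ)| ≤ E)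
    (hgrid : ∀ j, j * q ≤ M + q → |∑ m ∈ Icc 1 (j * q), lp (V τ c h m) -
      S * (((Icc 1 (j * q)).filter fun m => 2 ≤ V τ c h m).card : ℝ)| ≤ E) :
    |(cntu τ c h M : ℝ) -
      S' * ∑ m ∈ (Icc 1 M).filter (fun m => 2 ≤ V τ c h m), 1 / Real.log ((V τ c h m : ℤ) : ℝ)| ≤
     g / (2 * l ^ 2) * (2 * S * M + E) + E / (2 * l) +
      3 / (2 * l) * (2 * E + S * (2 * (e * H) + 2 * q + 1)) + (1 + 2 * S) * (√(H : ℝ) + 1) +
      |S' - S| * (M / l + 2 * (√(H : ℝ) + 1)) := by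
  classical
  have hH1 : (1 : ℝ) ≤ H := by exact_mod_cast hH
  have hH0 : (0 : ℝ) < H := by linarith
  have hK0 : 0 ≤ Real.log ((K : ℝ) + 1) := Real.log_nonneg (by
    have : (0 : ℝ) ≤ K := Nat.cast_nonneg K
    linarith)
  have hle : Real.log e ≤ 0 := Real.log_nonpos he0.le he1
  have hg0 : 0 ≤ g := by rw [hg]; linarith
  have hsm : (((Icc 1 M).filter fun m => 2 ≤ V τ c h m ∧ ((V τ c h m : ℤ) : ℝ) ≤ (H : ℝ)).card : ℝ) ≤
      √(H : ℝ) + 1 := by
    refine card_diam _ (Real.sqrt_nonneg _) fun m hm m' hm' => ?_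
    rw [mem_filter] at hm hm'
    exact V_sep hτ h m m' hm.2.1 hm.2.2 hm'.2.1 hm'.2.2
  have hY : ∀ m, 2 ≤ V τ c h m → (H : ℝ) < ((V τ c h m : ℤ) : ℝ) →
      l ≤ Real.log ((V τ c h m : ℤ) : ℝ) := by
    intro m _ h2
    rw [hl]
    exact Real.log_le_log hH0 h2.le
  have hX : √((e * H) ^ 2) = e * H := Real.sqrt_sq (by positivity)
  have key := one_h (v := fun m => V τ c h m) (M := M) (q := q) (S := S) (E := E) (l := l) (g := g)
    (D := e * H) (X := (e * H) ^ 2) (Y := H) (n0 := √(H : ℝ) + 1) hq hS hE hl0 hg0 (by positivity)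
    (fun m m' h1 h2 h3 h4 => by
      have := V_sep hτ h m m' h1 h2 h3 h4
      rwa [hX] at this) hsm hY (by
      intro m _ hm2 h3
      have e1 : 0 < (e * H) ^ 2 := by positivity
      have e2 : Real.log ((e * H) ^ 2) ≤ Real.log ((V τ c h m : ℤ) : ℝ) :=
        Real.log_le_log e1 h3.le
      have e3 : Real.log ((V τ c h m : ℤ) : ℝ) ≤ Real.log ((((K : ℝ) + 1) * H) ^ 2) :=
        Real.log_le_log (lt_trans e1 h3) (V_up hτ hhH (hm2.trans hMK) hc)
      rw [Real.log_pow, Real.log_mul he0.ne' hH0.ne', ← hl] at e2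
      rw [Real.log_pow, Real.log_mul (by positivity) hH0.ne', ← hl] at e3
      push_cast at e2 e3
      constructor
      · linarith
      · rw [abs_le]
        constructor <;> linarith) hM hgrid
  have hcnt : (cntu τ c h M : ℝ) =
      (((Icc 1 M).filter fun m => (V τ c h m).toNat.Prime).card : ℝ) := by
    unfold cntu
    rfl
  obtain ⟨A, hA⟩ : ∃ A : Finset ℕ, A = (Icc 1 M).filter fun m => 2 ≤ V τ c h m := ⟨_, rfl⟩
  have hAm : ∀ m ∈ A, 2 ≤ V τ c h m := by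
    intro m hm
    rw [hA] at hm
    exact (mem_filter.1 hm).2
  have hMs : (A.card : ℝ) ≤ M := by
    have h1 : A.card ≤ (Icc 1 M).card := by
      rw [hA]
      exact Finset.card_filter_le _ _
    rw [Nat.card_Icc] at h1
    have h2 : A.card ≤ M := by omega
    exact_mod_cast h2
  have hs2 : ((A.filter fun m => ((V τ c h m : ℤ) : ℝ) ≤ (H : ℝ)).card : ℝ) ≤ √(H : ℝ) + 1 := by
    rw [hA, Finset.filter_filter]
    exact hsm
  have hsum := sum_inv (v := fun m => V τ c h m) A hl0 hAm hs2 hY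
  rw [hcnt]
  rw [← hA] at key ⊢
  have hsum0 : 0 ≤ ∑ m ∈ A, 1 / Real.log ((V τ c h m : ℤ) : ℝ) := by
    refine Finset.sum_nonneg fun m hm => ?_
    have h2 : (2 : ℝ) ≤ ((V τ c h m : ℤ) : ℝ) := by exact_mod_cast hAm m hm
    have := Real.log_nonneg (by linarith : (1 : ℝ) ≤ ((V τ c h m : ℤ) : ℝ))
    positivity
  have hsum' : ∑ m ∈ A, 1 / Real.log ((V τ c h m : ℤ) : ℝ) ≤ M / l + 2 * (√(H : ℝ) + 1) := by
    refine hsum.trans ?_
    have : (A.card : ℝ) / l ≤ M / l := by gcongr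
    linarith
  have h1 : |(S - S') * ∑ m ∈ A, 1 / Real.log ((V τ c h m : ℤ) : ℝ)| ≤
      |S' - S| * (M / l + 2 * (√(H : ℝ) + 1)) := by
    rw [abs_mul, abs_of_nonneg hsum0, abs_sub_comm]
    exact mul_le_mul_of_nonneg_left hsum' (abs_nonneg _)
  have h2 : (((Icc 1 M).filter fun m => (V τ c h m).toNat.Prime).card : ℝ) -
      S' * ∑ m ∈ A, 1 / Real.log ((V τ c h m : ℤ) : ℝ) =
      ((((Icc 1 M).filter fun m => (V τ c h m).toNat.Prime).card : ℝ) -
      S * ∑ m ∈ A, 1 / Real.log ((V τ c h m : ℤ) : ℝ)) +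
      (S - S') * ∑ m ∈ A, 1 / Real.log ((V τ c h m : ℤ) : ℝ) := by ring
  rw [h2]
  exact (abs_add_le _ _).trans (add_le_add key h1)

/-- the numerical part -/
theorem num {g l S S0 M K η H e q n0 t s δ : ℝ} (hl : 0 < l) (hg : 0 ≤ g) (hS : 0 ≤ S)
    (hSS : S ≤ S0) (hM0 : 0 ≤ M) (hM : M ≤ (K + 1) * H) (hK : 0 ≤ K) (hH : 0 < H) (hδ : 0 < δ)
    (hη : η = δ / 32) (hgl : 4 * g * (2 * S0 * (K + 1) + η) / δ ≤ l) (he0 : 0 < e)
    (he : 48 * (S0 + 1) * e ≤ δ)
    (hq0 : 0 ≤ q) (hq : q ≤ e * H) (hS0H : 12 * S0 / δ ≤ H) (hn0 : 0 ≤ n0)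
    (hn : (1 + 2 * S0) * n0 ≤ δ / 8 * (H / l)) (ht1 : t ≤ 1 / 2)
    (ht2 : t ≤ δ / (8 * (K + 1))) (hs0 : 0 ≤ s) (hs : s ≤ t) :
    g / (2 * l ^ 2) * (2 * S * M + η * H) + η * H / (2 * l) +
      3 / (2 * l) * (2 * (η * H) + S * (2 * (e * H) + 2 * q + 1)) + (1 + 2 * S) * n0 +
      s * (M / l + 2 * n0) ≤ δ * (H / l) := by
  have hS0 : 0 ≤ S0 := hS.trans hSS
  have hη0 : 0 < η := by rw [hη]; positivity
  have t1 : g / (2 * l ^ 2) * (2 * S * M + η * H) ≤ δ / 8 * (H / l) := by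
    have e1 : 2 * S * M + η * H ≤ (2 * S0 * (K + 1) + η) * H := by
      have : S * M ≤ S0 * ((K + 1) * H) := mul_le_mul hSS hM hM0 hS0
      nlinarith
    have e2 : 4 * g * (2 * S0 * (K + 1) + η) ≤ δ * l := by
      rw [div_le_iff₀ hδ] at hgl
      linarith
    calc g / (2 * l ^ 2) * (2 * S * M + η * H)
        ≤ g / (2 * l ^ 2) * ((2 * S0 * (K + 1) + η) * H) := by gcongr
      _ = (4 * g * (2 * S0 * (K + 1) + η)) * (H / (8 * l ^ 2)) := by
          field_simp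
          ring
      _ ≤ (δ * l) * (H / (8 * l ^ 2)) := by gcongr
      _ = δ / 8 * (H / l) := by
          field_simp
  have t2 : η * H / (2 * l) = δ / 64 * (H / l) := by
    rw [hη]
    field_simp
    norm_num
  have t3 : 3 / (2 * l) * (2 * (η * H) + S * (2 * (e * H) + 2 * q + 1)) ≤
      (3 * δ / 32 + δ / 8 + δ / 8) * (H / l) := by
    have e1 : S * (2 * (e * H) + 2 * q + 1) ≤ S0 * (4 * (e * H) + 1) := by
      have : 0 ≤ e * H := by positivity
      exact mul_le_mul hSS (by linarith) (by positivity) hS0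
    have e2 : 12 * S0 ≤ δ * H := by
      rw [div_le_iff₀ hδ] at hS0H
      linarith
    have e3 : S0 * (4 * (e * H) + 1) ≤ (δ / 12 + δ / 12) * H := by
      have : 48 * S0 * e ≤ δ := by nlinarith
      have e4 : 48 * S0 * e * H ≤ δ * H := by gcongr
      nlinarith
    calc 3 / (2 * l) * (2 * (η * H) + S * (2 * (e * H) + 2 * q + 1))
        ≤ 3 / (2 * l) * (2 * (η * H) + (δ / 12 + δ / 12) * H) :=
          mul_le_mul_of_nonneg_left (by linarith [e1.trans e3]) (by positivity)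
      _ = (3 * δ / 32 + δ / 8 + δ / 8) * (H / l) := by
          rw [hη]
          field_simp
          ring
  have t4 : (1 + 2 * S) * n0 ≤ δ / 8 * (H / l) := by
    refine le_trans ?_ hn
    gcongr
  have t5 : s * (M / l + 2 * n0) ≤ δ / 8 * (H / l) + δ / 8 * (H / l) := by
    have e0 : 0 ≤ t := hs0.trans hs
    have e1 : s * (M / l + 2 * n0) ≤ t * (M / l + 2 * n0) := by gcongr
    have e2 : t * (M / l) ≤ δ / 8 * (H / l) := by
      calc t * (M / l) ≤ (δ / (8 * (K + 1))) * (((K + 1) * H) / l) := by gcongr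
        _ = δ / 8 * (H / l) := by
            field_simp
    have e3 : t * (2 * n0) ≤ (1 + 2 * S0) * n0 := by nlinarith
    calc s * (M / l + 2 * n0) ≤ t * (M / l) + t * (2 * n0) := by rw [← mul_add]; exact e1
      _ ≤ δ / 8 * (H / l) + δ / 8 * (H / l) := add_le_add e2 (e3.trans hn)
  have h0 : 0 ≤ H / l := by positivity
  have h1 : 0 ≤ δ * (H / l) := by positivity
  nlinarith

theorem Sq_nonneg (τ c : ℤ) (h z : ℕ) : 0 ≤ Sq τ c h z := by
  unfold Sq
  refine Finset.prod_nonneg fun p hp => ?_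
  rw [mem_filter] at hp
  have hp0 : (1 : ℝ) < p := by exact_mod_cast hp.2.one_lt
  have hp1 : (0 : ℝ) < p := by linarith
  have h1 : (((range p).filter (fun m : ℕ => (p : ℤ) ∣ V τ c h m)).card : ℝ) ≤ p := by
    have := Finset.card_filter_le (range p) (fun m : ℕ => (p : ℤ) ∣ V τ c h m)
    rw [card_range] at this
    exact_mod_cast this
  refine div_nonneg ?_ ?_
  · rw [sub_nonneg, div_le_one hp1]
    exact h1
  · rw [sub_nonneg, div_le_one hp1]
    exact hp0.le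

/-- (FIN) the final theorem -/
theorem t_FINu (hBL : ∀ s0, S_BLu s0) (hTLS : ∀ s0, S_TLSu s0) (hLWB : ∀ s0, S_LWBu s0)
    (hAVS : S_AVSu) (s0 : ℕ) : FinalU s0 := by
  classical
  intro ε hε
  obtain ⟨κ', hκ', hLW⟩ := hLWB s0 (ε / 8) (by positivity)
  obtain ⟨C, hC, hAV⟩ := hAVS
  refine ⟨κ' / 2, by positivity, ?_⟩
  intro δ K hδ
  obtain ⟨S0, hS0⟩ : ∃ S0, S0 = 8 * C / ε := ⟨_, rfl⟩
  have hS0p : 0 < S0 := by rw [hS0]; positivity
  obtain ⟨e, he⟩ : ∃ e, e = min 1 (δ / (48 * (S0 + 1))) := ⟨_, rfl⟩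
  have he0 : 0 < e := by rw [he]; exact lt_min one_pos (by positivity)
  have he1 : e ≤ 1 := by rw [he]; exact min_le_left _ _
  have heδ : 48 * (S0 + 1) * e ≤ δ := by
    have h1 : e ≤ δ / (48 * (S0 + 1)) := by rw [he]; exact min_le_right _ _
    rw [le_div_iff₀ (by positivity)] at h1
    linarith
  obtain ⟨η, hη⟩ : ∃ η, η = δ / 32 := ⟨_, rfl⟩
  have hη0 : 0 < η := by rw [hη]; positivity
  have hK0 : (0 : ℝ) ≤ K := Nat.cast_nonneg K
  obtain ⟨g, hg⟩ : ∃ g : ℝ, g = 2 * Real.log ((K : ℝ) + 1) - 2 * Real.log e := ⟨_, rfl⟩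
  have hg0 : 0 ≤ g := by
    have h1 : 0 ≤ Real.log ((K : ℝ) + 1) := Real.log_nonneg (by linarith)
    have h2 := Real.log_nonpos he0.le he1
    rw [hg]
    linarith
  obtain ⟨t, ht⟩ : ∃ t, t = min (min (κ' / 2) (ε / 8)) (min (1 / 2) (δ / (8 * ((K : ℝ) + 1)))) :=
    ⟨_, rfl⟩
  have ht0 : 0 < t := by
    rw [ht]
    exact lt_min (lt_min (by positivity) (by positivity)) (lt_min (by norm_num) (by positivity))
  have ht1 : t ≤ κ' / 2 := by rw [ht]; exact (min_le_left _ _).trans (min_le_left _ _)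
  have ht2 : t ≤ ε / 8 := by rw [ht]; exact (min_le_left _ _).trans (min_le_right _ _)
  have ht3 : t ≤ 1 / 2 := by rw [ht]; exact (min_le_right _ _).trans (min_le_left _ _)
  have ht4 : t ≤ δ / (8 * ((K : ℝ) + 1)) := by
    rw [ht]
    exact (min_le_right _ _).trans (min_le_right _ _)
  obtain ⟨I, hI⟩ : ∃ I : ℕ, 16 / ε ≤ (2 : ℝ) ^ I :=
    pow_unbounded_of_one_lt (16 / ε) (by norm_num : (1 : ℝ) < 2) |>.imp fun n hn => hn.le
  obtain ⟨J, hJ⟩ : ∃ J : ℕ, 2 * ((K : ℝ) + 1) / e ≤ J := exists_nat_ge _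
  obtain ⟨εB, hεB⟩ : ∃ εB, εB = η * (ε / (8 * (I + 1) * (J + 2))) := ⟨_, rfl⟩
  have hεB0 : 0 < εB := by rw [hεB]; positivity
  obtain ⟨z1, hz1⟩ := hBL s0 ((K + 1) * 4 ^ I) εB
    (Nat.one_le_iff_ne_zero.2 (by positivity)) hεB0
  obtain ⟨z2, hz2⟩ := hTLS s0 t ht0
  obtain ⟨z, hz⟩ : ∃ z, z = max z1 z2 := ⟨_, rfl⟩
  refine ⟨z, fun A => ?_⟩
  obtain ⟨H1, hH1⟩ := hz1 z (by rw [hz]; exact le_max_left _ _)
  obtain ⟨H2, hH2⟩ := hz2 z (by rw [hz]; exact le_max_right _ _) A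
  obtain ⟨H3, hH3⟩ := hLW z
  obtain ⟨H4, hH4⟩ := hAV z
  have hev : ∀ᶠ H : ℕ in Filter.atTop, ∀ (M Z : ℕ) (c τ : ℤ), Tame s0 c → (τ = 1 ∨ τ = -1) →
      c.natAbs ≤ K * H ^ 2 → M ≤ K * H → z ≤ Z → (Z : ℝ) ≤ Real.log H ^ A →
      (((Icc 1 H).filter (fun h : ℕ => ¬ (κ' / 2 ≤ Sq τ c h Z ∧ |(cntu τ c h M : ℝ) -
        Sq τ c h Z * ∑ m ∈ (Icc 1 M).filter (fun m : ℕ => 2 ≤ V τ c h m),
          1 / Real.log ((V τ c h m : ℤ) : ℝ)| ≤ δ * (H / Real.log H)))).card : ℝ) ≤ ε * H := by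
    filter_upwards [Filter.eventually_ge_atTop 2, Filter.eventually_ge_atTop H2,
      Filter.eventually_ge_atTop H3, Filter.eventually_ge_atTop H4,
      Filter.eventually_ge_atTop (2 ^ I * H1), ev_ge (1 / e), ev_ge (12 * S0 / δ), ev_ge (16 / ε),
      ev_log g, ev_log (4 * g * (2 * S0 * ((K : ℝ) + 1) + η) / δ),
      ev_log 1, ev_pow ((16 * (1 + 2 * S0) / δ) ^ 2) 2] with H g1 g2 g3 g4 g5 g6 g7 g8 g9 g10 g11 g12
    intro M Z c τ hT hτ hc hM hzZ hZA
    obtain ⟨l, hl⟩ : ∃ l, l = Real.log (H : ℝ) := ⟨_, rfl⟩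
    rw [← hl] at g9 g10 g11 g12 hZA ⊢
    have hl0 : 0 < l := by linarith
    have hHr2 : (2 : ℝ) ≤ H := by exact_mod_cast g1
    have hH0 : (0 : ℝ) < H := by linarith
    have hHn : 1 ≤ H := by omega
    -- the grid
    obtain ⟨q, hq⟩ : ∃ q, q = ⌊e * (H : ℝ)⌋₊ := ⟨_, rfl⟩
    have heH : 1 ≤ e * (H : ℝ) := by
      rw [div_le_iff₀ he0] at g6
      linarith
    have hq1 : 1 ≤ q := by
      rw [hq]
      exact Nat.one_le_floor_iff _ |>.2 heH
    have hqe : (q : ℝ) ≤ e * H := by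
      rw [hq]
      exact Nat.floor_le (by positivity)
    have hqe2 : e * H ≤ 2 * q := by
      have h1 : e * (H : ℝ) < q + 1 := by
        rw [hq]
        exact Nat.lt_floor_add_one _
      have h2 : (1 : ℝ) ≤ q := by exact_mod_cast hq1
      linarith
    have hqH : q ≤ H := by
      have h1 : (q : ℝ) ≤ H := hqe.trans (by nlinarith)
      exact_mod_cast h1
    have hJq : ∀ j : ℕ, j * q ≤ M + q → j ≤ J := by
      intro j hj
      have h1 : j * q ≤ (K + 1) * H := by nlinarith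
      have h2 : ((j * q : ℕ) : ℝ) ≤ (((K + 1) * H : ℕ) : ℝ) := by exact_mod_cast h1
      push_cast at h2
      have h3 : (j : ℝ) * (e * H) ≤ 2 * (((K : ℝ) + 1) * H) := by
        have : (j : ℝ) * (e * H) ≤ j * (2 * q) := by gcongr
        linarith
      have h4 : (j : ℝ) * e ≤ 2 * ((K : ℝ) + 1) := by
        have : (j : ℝ) * e * H ≤ 2 * ((K : ℝ) + 1) * H := by linarith
        exact le_of_mul_le_mul_right this hH0
      have h5 : (j : ℝ) ≤ J := by
        refine le_trans ?_ hJ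
        rw [le_div_iff₀ he0]
        exact h4
      exact_mod_cast h5
    obtain ⟨Gr, hGr⟩ : ∃ Gr : Finset ℕ, Gr =
      insert M (((range (J + 1)).filter (fun j => j * q ≤ M + q)).image (fun j => j * q)) :=
      ⟨_, rfl⟩
    have hGr1 : (Gr.card : ℝ) ≤ J + 2 := by
      have h1 : Gr.card ≤ J + 2 := by
        rw [hGr]
        refine (Finset.card_insert_le _ _).trans ?_
        have h2 := Finset.card_image_le (s := (range (J + 1)).filter (fun j => j * q ≤ M + q))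
          (f := fun j => j * q)
        have h3 := Finset.card_filter_le (range (J + 1)) (fun j => j * q ≤ M + q)
        rw [card_range] at h3
        omega
      exact_mod_cast h1
    have hGr2 : ∀ x ∈ Gr, x ≤ (K + 1) * H := by
      intro x hx
      rw [hGr, mem_insert, mem_image] at hx
      rcases hx with rfl | ⟨j, hj, rfl⟩
      · nlinarith
      · rw [mem_filter] at hj
        have := hj.2
        nlinarith
    obtain ⟨D, hD⟩ : ∃ D : ℕ → ℕ → ℝ, D = fun x h => |∑ m ∈ Icc 1 x, lp (V τ c h m) -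
      Sq τ c h z * (((Icc 1 x).filter (fun m : ℕ => 2 ≤ V τ c h m)).card : ℝ)| := ⟨_, rfl⟩
    have hD0 : ∀ x h, 0 ≤ D x h := by
      intro x h
      rw [hD]
      exact abs_nonneg _
    obtain ⟨Q, hQ⟩ : ∃ Q : ℕ → ℕ → Finset ℕ, Q = fun (i x : ℕ) =>
      (Ioc (hh H (i + 1)) (2 * hh H (i + 1))).filter fun h : ℕ => η * H < D x h := ⟨_, rfl⟩
    have hQcard : ∀ i < I, ∀ x ∈ Gr, ((Q i x).card : ℝ) ≤ ε / (8 * (I + 1) * (J + 2)) * H := by
      intro i hi x hx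
      obtain ⟨H', hH'⟩ : ∃ H', H' = hh H (i + 1) := ⟨_, rfl⟩
      have k1 : H ≤ 2 ^ I * H' := by
        have := hh_ge H (i + 1)
        rw [← hH'] at this
        exact this.trans (Nat.mul_le_mul_right _ (Nat.pow_le_pow_right (by norm_num) (by omega)))
      have k2 : H1 ≤ H' := by
        have := g5.trans k1
        exact Nat.le_of_mul_le_mul_left this (by positivity)
      have k3 : (H' : ℝ) ≤ H := by
        have := (hh_le hHn (i + 1)).2
        rw [← hH'] at this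
        exact_mod_cast this
      have k4 : c.natAbs ≤ (K + 1) * 4 ^ I * H' ^ 2 := by
        calc c.natAbs ≤ K * H ^ 2 := hc
          _ ≤ (K + 1) * (2 ^ I * H') ^ 2 :=
            Nat.mul_le_mul (Nat.le_succ K) (Nat.pow_le_pow_left k1 2)
          _ = (K + 1) * 4 ^ I * H' ^ 2 := by
            rw [mul_pow, ← pow_mul, mul_comm I 2, pow_mul]
            norm_num
            ring
      have k5 : x ≤ (K + 1) * 4 ^ I * H' := by
        calc x ≤ (K + 1) * H := hGr2 x hx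
          _ ≤ (K + 1) * (2 ^ I * H') := Nat.mul_le_mul_left _ k1
          _ = (K + 1) * 2 ^ I * H' := by ring
          _ ≤ (K + 1) * 4 ^ I * H' := by
            refine Nat.mul_le_mul_right _ (Nat.mul_le_mul_left _ ?_)
            exact Nat.pow_le_pow_left (by norm_num) I
      have key := hH1 H' k2 x c τ hT hτ k4 k5
      rw [hQ]
      simp only
      rw [← hH']
      refine markov _ (fun h : ℕ => D x h) (fun h => hD0 x h) (by positivity) ?_
      rw [hD]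
      refine key.trans ?_
      calc εB * (H' : ℝ) ^ 2 ≤ εB * (H : ℝ) ^ 2 := by gcongr
        _ = ε / (8 * (I + 1) * (J + 2)) * H * (η * H) := by
            rw [hεB]
            ring
    obtain ⟨E1, hE1⟩ : ∃ E1 : Finset ℕ, E1 = (Icc 1 H).filter fun h : ℕ => S0 < Sq τ c h z :=
      ⟨_, rfl⟩
    obtain ⟨E2, hE2⟩ : ∃ E2 : Finset ℕ, E2 = (Icc 1 H).filter fun h : ℕ =>
        t < |Sq τ c h Z - Sq τ c h z| := ⟨_, rfl⟩
    obtain ⟨E3, hE3⟩ : ∃ E3 : Finset ℕ, E3 = (Icc 1 H).filter fun h : ℕ => Sq τ c h z < κ' :=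
      ⟨_, rfl⟩
    obtain ⟨E4, hE4⟩ : ∃ E4 : Finset ℕ, E4 = Icc 1 (hh H I) := ⟨_, rfl⟩
    obtain ⟨E5, hE5⟩ : ∃ E5 : Finset ℕ, E5 = (range I).biUnion fun i => Gr.biUnion fun x => Q i x :=
      ⟨_, rfl⟩
    have hn0 : (1 + 2 * S0) * (√(H : ℝ) + 1) ≤ δ / 8 * (H / l) := by
      have e1 : 16 * (1 + 2 * S0) / δ * l ≤ √(H : ℝ) := by
        refine Real.le_sqrt_of_sq_le ?_
        rw [mul_pow]
        exact g12
      have e2 : 1 ≤ √(H : ℝ) := Real.one_le_sqrt.2 (by linarith)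
      have e3 : √(H : ℝ) * √(H : ℝ) = H := Real.mul_self_sqrt hH0.le
      rw [← mul_div_assoc, le_div_iff₀ hl0]
      calc (1 + 2 * S0) * (√(H : ℝ) + 1) * l ≤ (1 + 2 * S0) * (√(H : ℝ) + √(H : ℝ)) * l := by
            gcongr
        _ = δ / 8 * ((16 * (1 + 2 * S0) / δ * l) * √(H : ℝ)) := by
            field_simp
            ring
        _ ≤ δ / 8 * (√(H : ℝ) * √(H : ℝ)) := by gcongr
        _ = δ / 8 * H := by rw [e3]
    -- the inclusion
    have hsub : (Icc 1 H).filter (fun h : ℕ => ¬ (κ' / 2 ≤ Sq τ c h Z ∧ |(cntu τ c h M : ℝ) -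
        Sq τ c h Z * ∑ m ∈ (Icc 1 M).filter (fun m : ℕ => 2 ≤ V τ c h m),
          1 / Real.log ((V τ c h m : ℤ) : ℝ)| ≤ δ * (H / l))) ⊆
        E1 ∪ (E2 ∪ (E3 ∪ (E4 ∪ E5))) := by
      intro h hh1
      rw [mem_filter, mem_Icc] at hh1
      obtain ⟨⟨hh1, hhH⟩, hno⟩ := hh1
      by_contra hcon
      rw [mem_union, mem_union, mem_union, mem_union, not_or, not_or, not_or, not_or] at hcon
      obtain ⟨n1, n2, n3, n4, n5⟩ := hcon
      apply hno
      have hmem : h ∈ Icc 1 H := mem_Icc.2 ⟨hh1, hhH⟩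
      have m1 : Sq τ c h z ≤ S0 := by
        by_contra hc1
        apply n1
        rw [hE1]
        exact mem_filter.2 ⟨hmem, not_le.1 hc1⟩
      have m2 : |Sq τ c h Z - Sq τ c h z| ≤ t := by
        by_contra hc1
        apply n2
        rw [hE2]
        exact mem_filter.2 ⟨hmem, not_le.1 hc1⟩
      have m3 : κ' ≤ Sq τ c h z := by
        by_contra hc1
        apply n3
        rw [hE3]
        exact mem_filter.2 ⟨hmem, not_le.1 hc1⟩
      have m4 : hh H I < h := by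
        by_contra hc1
        apply n4
        rw [hE4]
        exact mem_Icc.2 ⟨hh1, not_lt.1 hc1⟩
      rcases cover H h I hhH with h5 | ⟨i, hi, hi1, hi2⟩
      · omega
      have m5 : ∀ x ∈ Gr, D x h ≤ η * H := by
        intro x hx
        by_contra hc1
        apply n5
        rw [hE5, mem_biUnion]
        refine ⟨i, mem_range.2 hi, ?_⟩
        rw [mem_biUnion]
        refine ⟨x, hx, ?_⟩
        rw [hQ]
        exact mem_filter.2 ⟨mem_Ioc.2 ⟨hi1, hi2⟩, not_le.1 hc1⟩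
      refine ⟨by linarith [(abs_le.1 m2).1], ?_⟩
      have hMG : D M h ≤ η * H := m5 M (by rw [hGr]; exact mem_insert_self _ _)
      have hjG : ∀ j, j * q ≤ M + q → D (j * q) h ≤ η * H := by
        intro j hj
        refine m5 _ ?_
        rw [hGr]
        refine mem_insert_of_mem (mem_image.2 ⟨j, mem_filter.2 ⟨mem_range.2 ?_, hj⟩, rfl⟩)
        have := hJq j hj
        omega
      rw [hD] at hMG hjG
      have hS0' : 0 ≤ Sq τ c h z := by linarith
      have fin := one_V (S' := Sq τ c h Z) hτ hq1 hhH hM hc he0 hS0' (by positivity) hHn hl hl0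
        he1 hg g9 hMG hjG
      refine fin.trans ?_
      have hMK : (M : ℝ) ≤ ((K : ℝ) + 1) * H := by
        have h1 : (M : ℝ) ≤ K * H := by exact_mod_cast hM
        linarith
      exact num hl0 hg0 hS0' m1 (Nat.cast_nonneg M) hMK hK0 hH0 hδ hη g10 he0 heδ
        (Nat.cast_nonneg q) hqe g7 (by positivity) hn0 ht3 ht4 (abs_nonneg _) m2
    have hcard := Finset.card_le_card hsub
    have d1 : (E1.card : ℝ) ≤ ε / 8 * H := by
      rw [hE1]
      refine markov (Icc 1 H) (fun h : ℕ => Sq τ c h z) (fun h => Sq_nonneg τ c h z) hS0p ?_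
      refine (hH4 H g4 c τ hT.1 hτ).trans (le_of_eq ?_)
      rw [hS0]
      field_simp
    have d2 : (E2.card : ℝ) ≤ ε / 8 * H := by
      rw [hE2]
      refine (hH2 H g2 Z c τ hT hτ hzZ (by rw [← hl]; exact hZA)).trans ?_
      gcongr
    have d3 : (E3.card : ℝ) ≤ ε / 8 * H := by
      rw [hE3]
      exact hH3 H g3 c τ hT hτ
    have d4 : (E4.card : ℝ) ≤ ε / 8 * H := by
      rw [hE4, Nat.card_Icc]
      have e1 := hh_up H I
      have e2 : (H : ℝ) / 2 ^ I ≤ ε / 16 * H := by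
        rw [div_le_iff₀ (by positivity)]
        rw [div_le_iff₀ hε] at hI
        nlinarith
      have e3 : ((hh H I + 1 - 1 : ℕ) : ℝ) = hh H I := by simp
      rw [e3]
      rw [div_le_iff₀ hε] at g8
      linarith
    have d5 : (E5.card : ℝ) ≤ ε / 8 * H := by
      rw [hE5]
      have e1 : (((range I).biUnion fun i => Gr.biUnion fun x => Q i x).card : ℝ) ≤
          ∑ i ∈ range I, ∑ x ∈ Gr, ((Q i x).card : ℝ) := by
        have : ((range I).biUnion fun i => Gr.biUnion fun x => Q i x).card ≤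
            ∑ i ∈ range I, ∑ x ∈ Gr, (Q i x).card :=
          Finset.card_biUnion_le.trans (Finset.sum_le_sum fun i _ => Finset.card_biUnion_le)
        exact_mod_cast this
      have e2 : ∑ i ∈ range I, ∑ x ∈ Gr, ((Q i x).card : ℝ) ≤
          ∑ _i ∈ range I, ∑ _x ∈ Gr, ε / (8 * (I + 1) * (J + 2)) * H :=
        Finset.sum_le_sum fun i hi => Finset.sum_le_sum fun x hx =>
          hQcard i (mem_range.1 hi) x hx
      rw [Finset.sum_const, Finset.sum_const, card_range, nsmul_eq_mul, nsmul_eq_mul] at e2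
      refine e1.trans (e2.trans ?_)
      have hI0 : (0 : ℝ) ≤ I := Nat.cast_nonneg I
      have hJ0 : (0 : ℝ) ≤ J := Nat.cast_nonneg J
      calc (I : ℝ) * (Gr.card * (ε / (8 * (I + 1) * (J + 2)) * H))
          ≤ ((I : ℝ) + 1) * ((J + 2) * (ε / (8 * (I + 1) * (J + 2)) * H)) := by
            gcongr
            linarith
        _ = ε / 8 * H := by
            field_simp
    have u1 := Finset.card_union_le E1 (E2 ∪ (E3 ∪ (E4 ∪ E5)))
    have u2 := Finset.card_union_le E2 (E3 ∪ (E4 ∪ E5))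
    have u3 := Finset.card_union_le E3 (E4 ∪ E5)
    have u4 := Finset.card_union_le E4 E5
    have u5 : (((Icc 1 H).filter (fun h : ℕ => ¬ (κ' / 2 ≤ Sq τ c h Z ∧ |(cntu τ c h M : ℝ) -
        Sq τ c h Z * ∑ m ∈ (Icc 1 M).filter (fun m : ℕ => 2 ≤ V τ c h m),
          1 / Real.log ((V τ c h m : ℤ) : ℝ)| ≤ δ * (H / l)))).card : ℝ) ≤
        E1.card + E2.card + E3.card + E4.card + E5.card := by
      have := hcard.trans (u1.trans (Nat.add_le_add_left (u2.trans (Nat.add_le_add_left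
        (u3.trans (Nat.add_le_add_left u4 _)) _)) _))
      have h2 : ((_ : ℕ) : ℝ) ≤ ((_ : ℕ) : ℝ) := Nat.cast_le.2 this
      push_cast at h2
      linarith
    have h0 : 0 < ε * H := by positivity
    linarith
  obtain ⟨H0, hH0⟩ := Filter.eventually_atTop.1 hev
  exact ⟨H0, fun H hH M Z c τ hT hτ hc hM hzZ hZA => hH0 H hH M Z c τ hT hτ hc hM hzZ hZA⟩

end

end Pool.Agent.N765.QU
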