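import Pool.Agent.N728.QU.Def
import Pool.Agent.N199.QL.FIN

/-!
Project QU (helper728), part FIN, one `h`.
-/

set_option autoImplicit false

namespace Pool.Agent.N765.QU

open Finset Pool.Agent.N728.QU
open Pool.Agent.N728.QL (lp)
open Pool.Agent.N199.QL (hh hh_step hh_ge hh_le hh_up cover markov ev_pow ev_log ev_ge)

noncomputable section

open Classical in
/-- the indicator function of the primes -/
theorem lp_eq (n : ℤ) : lp n = (if n.toNat.Prime then (1 : ℝ) else 0) * Real.log n := by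
  unfold Pool.Agent.N728.QL.lp
  split_ifs <;> simp

/-- a set of diameter at most `D` -/
theorem card_diam (s : Finset ℕ) {D : ℝ} (hD : 0 ≤ D)
    (h : ∀ m ∈ s, ∀ m' ∈ s, (m : ℝ) - m' ≤ D) : (s.card : ℝ) ≤ D + 1 := by
  rcases s.eq_empty_or_nonempty with rfl | hs
  · simp
    linarith
  · have h1 := h (s.max' hs) (s.max'_mem hs) (s.min' hs) (s.min'_mem hs)
    have h2 : s ⊆ Icc (s.min' hs) (s.max' hs) := fun x hx =>
      mem_Icc.2 ⟨s.min'_le x hx, s.le_max' x hx⟩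
    have h3 := Finset.card_le_card h2
    rw [Nat.card_Icc] at h3
    have h4 : s.min' hs ≤ s.max' hs := s.min'_le _ (s.max'_mem hs)
    have h5 : s.card + s.min' hs ≤ s.max' hs + 1 := by omega
    have h6 : ((s.card + s.min' hs : ℕ) : ℝ) ≤ ((s.max' hs + 1 : ℕ) : ℝ) := by exact_mod_cast h5
    push_cast at h6
    linarith

theorem V_cast (τ c : ℤ) (h m : ℕ) :
    ((V τ c h m : ℤ) : ℝ) = τ * ((m : ℝ) ^ 2 - (h : ℝ) ^ 2) + c := by
  unfold V
  push_cast
  ring

/-- small values of `V` are taken on a short interval -/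
theorem V_sep {τ c : ℤ} (hτ : τ = 1 ∨ τ = -1) (h m m' : ℕ) {X : ℝ}
    (h1 : 2 ≤ V τ c h m) (h2 : ((V τ c h m : ℤ) : ℝ) ≤ X) (h3 : 2 ≤ V τ c h m')
    (h4 : ((V τ c h m' : ℤ) : ℝ) ≤ X) : (m : ℝ) - m' ≤ √X := by
  rcases le_or_gt (m : ℝ) m' with h5 | h5
  · have := Real.sqrt_nonneg X
    linarith
  · refine Real.le_sqrt_of_sq_le ?_
    have h1' : (2 : ℝ) ≤ ((V τ c h m : ℤ) : ℝ) := by exact_mod_cast h1
    have h3' : (2 : ℝ) ≤ ((V τ c h m' : ℤ) : ℝ) := by exact_mod_cast h3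
    rw [V_cast] at h1' h2 h3' h4
    have h6 : (m : ℝ) ^ 2 - (m' : ℝ) ^ 2 ≤ X := by
      rcases hτ with rfl | rfl
      · push_cast at *
        linarith
      · push_cast at *
        linarith
    have h7 : 0 ≤ (m' : ℝ) := Nat.cast_nonneg _
    nlinarith

theorem half_le_log2 : (1 : ℝ) / 2 ≤ Real.log 2 := by
  have := Real.log_two_gt_d9
  linarith

/-- the sum of `1 / log` over all `m` -/
theorem sum_inv {v : ℕ → ℤ} (B : Finset ℕ) {l Y n0 : ℝ} (hl : 0 < l)
    (hB : ∀ m ∈ B, 2 ≤ v m)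
    (hsm : ((B.filter fun m => (v m : ℝ) ≤ Y).card : ℝ) ≤ n0)
    (hY : ∀ m, 2 ≤ v m → Y < (v m : ℝ) → l ≤ Real.log (v m)) :
    ∑ m ∈ B, 1 / Real.log (v m) ≤ B.card / l + 2 * n0 := by
  classical
  have h1 : ∀ m ∈ B, 1 / Real.log (v m) ≤ 1 / l + (if (v m : ℝ) ≤ Y then 2 else 0) := by
    intro m hm
    have h2 := hB m hm
    have h2' : (2 : ℝ) ≤ (v m : ℝ) := by exact_mod_cast h2
    have h3 : (1 : ℝ) / 2 ≤ Real.log (v m) :=
      half_le_log2.trans (Real.log_le_log (by norm_num) h2')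
    have h4 : 0 < Real.log (v m) := by linarith
    split_ifs with h5
    · have h6 : 1 / Real.log (v m) ≤ 2 := by
        rw [div_le_iff₀ h4]
        linarith
      have h7 : 0 ≤ 1 / l := by positivity
      linarith
    · have h6 := hY m h2 (not_le.1 h5)
      have h7 : 1 / Real.log (v m) ≤ 1 / l := one_div_le_one_div_of_le hl h6
      linarith
  refine (Finset.sum_le_sum h1).trans ?_
  rw [Finset.sum_add_distrib, Finset.sum_const, nsmul_eq_mul, ← Finset.sum_filter,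
    Finset.sum_const, nsmul_eq_mul]
  have : (B.card : ℝ) * (1 / l) = B.card / l := by ring
  rw [this]
  linarith

/-- one `h` -/
theorem one_h {v : ℕ → ℤ} {M q : ℕ} {S E l g D X Y n0 : ℝ} (hq : 1 ≤ q) (hS : 0 ≤ S)
    (hE : 0 ≤ E) (hl : 0 < l) (hg0 : 0 ≤ g) (hD : 0 ≤ D)
    (hcl : ∀ m m', 2 ≤ v m → (v m : ℝ) ≤ X → 2 ≤ v m' → (v m' : ℝ) ≤ X → (m : ℝ) - m' ≤ D)
    (hsm : (((Icc 1 M).filter fun m => 2 ≤ v m ∧ (v m : ℝ) ≤ Y).card : ℝ) ≤ n0)
    (hY : ∀ m, 2 ≤ v m → Y < (v m : ℝ) → l ≤ Real.log (v m))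
    (hgood : ∀ m, 1 ≤ m → m ≤ M → X < (v m : ℝ) →
      l ≤ Real.log (v m) ∧ |Real.log (v m) - 2 * l| ≤ g)
    (hM : |∑ m ∈ Icc 1 M, lp (v m) - S * (((Icc 1 M).filter fun m => 2 ≤ v m).card : ℝ)| ≤ E)
    (hgrid : ∀ j, j * q ≤ M + q → |∑ m ∈ Icc 1 (j * q), lp (v m) -
      S * (((Icc 1 (j * q)).filter fun m => 2 ≤ v m).card : ℝ)| ≤ E) :
    |(((Icc 1 M).filter fun m => (v m).toNat.Prime).card : ℝ) -
      S * ∑ m ∈ (Icc 1 M).filter (fun m => 2 ≤ v m), 1 / Real.log (v m)| ≤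
     g / (2 * l ^ 2) * (2 * S * M + E) + E / (2 * l) +
      3 / (2 * l) * (2 * E + S * (2 * D + 2 * q + 1)) + (1 + 2 * S) * n0 := by
  classical
  obtain ⟨P, hP⟩ : ∃ P : ℕ → ℝ, P = fun m => if (v m).toNat.Prime then (1 : ℝ) else 0 := ⟨_, rfl⟩
  have hP0 : ∀ m, 0 ≤ P m := by
    intro m
    rw [hP]
    simp only
    split_ifs <;> norm_num
  have hP1 : ∀ m, P m ≤ 1 := by
    intro m
    rw [hP]
    simp only
    split_ifs <;> norm_num
  have hlp : ∀ m : ℕ, lp (v m) = P m * Real.log (v m) := fun m => by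
    rw [lp_eq, hP]
  have hP2 : ∀ m, ¬ 2 ≤ v m → P m = 0 := by
    intro m hm
    rw [hP]
    simp only
    rw [if_neg]
    intro h
    have := h.two_le
    omega
  have hlp0 : ∀ m, 0 ≤ lp (v m) := by
    intro m
    by_cases h2 : 2 ≤ v m
    · rw [hlp]
      have h2' : (2 : ℝ) ≤ (v m : ℝ) := by exact_mod_cast h2
      exact mul_nonneg (hP0 m) (Real.log_nonneg (by linarith))
    · rw [hlp, hP2 m h2, zero_mul]
  obtain ⟨A, hA⟩ : ∃ A : Finset ℕ, A = (Icc 1 M).filter fun m => 2 ≤ v m := ⟨_, rfl⟩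
  obtain ⟨B, hB⟩ : ∃ B : Finset ℕ, B = A.filter fun m => (v m : ℝ) ≤ X := ⟨_, rfl⟩
  obtain ⟨G, hG⟩ : ∃ G : Finset ℕ, G = A.filter fun m => ¬ (v m : ℝ) ≤ X := ⟨_, rfl⟩
  have hBmem : ∀ m ∈ B, (1 ≤ m ∧ m ≤ M) ∧ 2 ≤ v m ∧ (v m : ℝ) ≤ X := by
    intro m hm
    rw [hB, hA, mem_filter, mem_filter, mem_Icc] at hm
    exact ⟨hm.1.1, hm.1.2, hm.2⟩
  have hGmem : ∀ m ∈ G, (1 ≤ m ∧ m ≤ M) ∧ 2 ≤ v m ∧ X < (v m : ℝ) := by
    intro m hm
    rw [hG, hA, mem_filter, mem_filter, mem_Icc] at hm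
    exact ⟨hm.1.1, hm.1.2, not_le.1 hm.2⟩
  have hsplit : ∀ f : ℕ → ℝ, ∑ m ∈ A, f m = ∑ m ∈ B, f m + ∑ m ∈ G, f m := by
    intro f
    rw [hB, hG, Finset.sum_filter_add_sum_filter_not]
  have hcount : (((Icc 1 M).filter fun m => (v m).toNat.Prime).card : ℝ) = ∑ m ∈ A, P m := by
    rw [Finset.card_filter, hA, Finset.sum_filter]
    push_cast
    refine Finset.sum_congr rfl fun m _ => ?_
    by_cases h2 : 2 ≤ v m
    · rw [if_pos h2, hP]
    · rw [if_neg h2]
      have h3 := hP2 m h2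
      rw [hP] at h3
      exact h3
  have hlpA : ∑ m ∈ Icc 1 M, lp (v m) = ∑ m ∈ A, lp (v m) := by
    rw [hA, Finset.sum_filter]
    refine Finset.sum_congr rfl fun m _ => ?_
    by_cases h2 : 2 ≤ v m
    · rw [if_pos h2]
    · rw [if_neg h2, hlp, hP2 m h2, zero_mul]
  rw [← hA, hlpA] at hM
  rw [hcount, ← hA]
  -- step 1
  have st1 : ∑ m ∈ B, lp (v m) ≤ 2 * E + S * (D + 2 * q) := by
    rcases B.eq_empty_or_nonempty with h0 | hs
    · rw [h0, Finset.sum_empty]
      positivity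
    · obtain ⟨a, ha⟩ : ∃ a, a = B.min' hs := ⟨_, rfl⟩
      obtain ⟨b, hb⟩ : ∃ b, b = B.max' hs := ⟨_, rfl⟩
      have ha1 : a ∈ B := ha ▸ B.min'_mem hs
      have hb1 : b ∈ B := hb ▸ B.max'_mem hs
      have ha2 := hBmem a ha1
      have hb2 := hBmem b hb1
      have hab : a ≤ b := by
        rw [ha]
        exact B.min'_le b hb1
      have hdab : (b : ℝ) - a ≤ D := hcl b a hb2.2.1 hb2.2.2 ha2.2.1 ha2.2.2
      obtain ⟨j1, hj1⟩ : ∃ j1, j1 = (a - 1) / q := ⟨_, rfl⟩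
      obtain ⟨j2, hj2⟩ : ∃ j2, j2 = (b - 1) / q + 1 := ⟨_, rfl⟩
      have e1 : j1 * q ≤ a - 1 := by
        rw [hj1]
        exact Nat.div_mul_le_self _ _
      have e2 : a ≤ j1 * q + q := by
        have := Nat.div_add_mod (a - 1) q
        have h3 := Nat.mod_lt (a - 1) (by omega : q > 0)
        rw [← hj1, mul_comm] at this
        omega
      have e3 : b ≤ j2 * q := by
        have := Nat.div_add_mod (b - 1) q
        have h3 := Nat.mod_lt (b - 1) (by omega : q > 0)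
        rw [hj2, add_mul, one_mul]
        rw [mul_comm] at this
        omega
      have e4 : j2 * q ≤ b - 1 + q := by
        rw [hj2, add_mul, one_mul]
        have := Nat.div_mul_le_self (b - 1) q
        omega
      have e5 : j1 * q ≤ j2 * q := by omega
      have g1 := hgrid j1 (by omega)
      have g2 := hgrid j2 (by omega)
      have s1 : ∑ m ∈ Icc 1 (j2 * q), lp (v m) = ∑ m ∈ Icc 1 (j1 * q), lp (v m) +
          ∑ m ∈ Ioc (j1 * q) (j2 * q), lp (v m) := by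
        rw [← Finset.sum_union]
        · congr 1
          ext t
          simp only [mem_union, mem_Icc, mem_Ioc]
          omega
        · rw [Finset.disjoint_left]
          intro t h3 h4
          rw [mem_Icc] at h3
          rw [mem_Ioc] at h4
          omega
      have s2 : (((Icc 1 (j2 * q)).filter fun m => 2 ≤ v m).card : ℝ) ≤
          (((Icc 1 (j1 * q)).filter fun m => 2 ≤ v m).card : ℝ) + ((j2 * q : ℕ) - (j1 * q : ℕ)) := by
        have k1 : (Icc 1 (j2 * q)).filter (fun m => 2 ≤ v m) ⊆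
            (Icc 1 (j1 * q)).filter (fun m => 2 ≤ v m) ∪ Ioc (j1 * q) (j2 * q) := by
          intro t ht
          rw [mem_filter, mem_Icc] at ht
          rw [mem_union, mem_filter, mem_Icc, mem_Ioc]
          by_cases h : t ≤ j1 * q
          · exact Or.inl ⟨⟨ht.1.1, h⟩, ht.2⟩
          · exact Or.inr ⟨not_le.1 h, ht.1.2⟩
        have k2 := (Finset.card_le_card k1).trans (Finset.card_union_le _ _)
        rw [Nat.card_Ioc] at k2
        have k3 : (((Icc 1 (j2 * q)).filter fun m => 2 ≤ v m).card : ℝ) ≤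
          (((Icc 1 (j1 * q)).filter fun m => 2 ≤ v m).card + (j2 * q - j1 * q : ℕ) : ℕ) := by
          exact_mod_cast k2
        rw [Nat.cast_add, Nat.cast_sub e5] at k3
        exact k3
      have s3 : ∑ m ∈ B, lp (v m) ≤ ∑ m ∈ Ioc (j1 * q) (j2 * q), lp (v m) := by
        refine Finset.sum_le_sum_of_subset_of_nonneg ?_ fun m _ _ => hlp0 m
        intro t ht
        rw [mem_Ioc]
        have k1 : a ≤ t := by
          rw [ha]
          exact B.min'_le t ht
        have k2 : t ≤ b := by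
          rw [hb]
          exact B.le_max' t ht
        have := ha2.1.1
        omega
      have s4 : ((j2 * q : ℕ) : ℝ) - ((j1 * q : ℕ) : ℝ) ≤ D + 2 * q := by
        have k1 : j2 * q + a ≤ b + j1 * q + 2 * q := by omega
        have k2 : ((j2 * q + a : ℕ) : ℝ) ≤ ((b + j1 * q + 2 * q : ℕ) : ℝ) := by exact_mod_cast k1
        push_cast at k2 ⊢
        linarith
      have s5 : S * (((Icc 1 (j2 * q)).filter fun m => 2 ≤ v m).card : ℝ) ≤
          S * ((((Icc 1 (j1 * q)).filter fun m => 2 ≤ v m).card : ℝ) + (D + 2 * q)) :=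
        mul_le_mul_of_nonneg_left (by linarith) hS
      have g1' := (abs_le.1 g1).1
      have g2' := (abs_le.1 g2).2
      linarith
  have st2 : (B.card : ℝ) ≤ D + 1 := card_diam B hD fun m hm m' hm' =>
    hcl m m' (hBmem m hm).2.1 (hBmem m hm).2.2 (hBmem m' hm').2.1 (hBmem m' hm').2.2
  have hn0' : ((B.filter fun m => (v m : ℝ) ≤ Y).card : ℝ) ≤ n0 := by
    refine le_trans ?_ hsm
    have : (B.filter fun m => (v m : ℝ) ≤ Y) ⊆
        (Icc 1 M).filter fun m => 2 ≤ v m ∧ (v m : ℝ) ≤ Y := by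
      intro m hm
      rw [mem_filter] at hm
      have := hBmem m hm.1
      rw [mem_filter, mem_Icc]
      exact ⟨this.1, this.2.1, hm.2⟩
    exact_mod_cast Finset.card_le_card this
  have st3 : ∑ m ∈ B, 1 / Real.log (v m) ≤ B.card / l + 2 * n0 :=
    sum_inv B hl (fun m hm => (hBmem m hm).2.1) hn0' hY
  have hPl : ∀ m, 2 ≤ v m → l ≤ Real.log (v m) → P m ≤ lp (v m) / l := by
    intro m h2 h3
    rw [hlp, le_div_iff₀ hl]
    exact mul_le_mul_of_nonneg_left h3 (hP0 m)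
  have st4 : ∑ m ∈ B, P m ≤ (∑ m ∈ B, lp (v m)) / l + n0 := by
    have h1 : ∀ m ∈ B, P m ≤ lp (v m) / l + (if (v m : ℝ) ≤ Y then 1 else 0) := by
      intro m hm
      have h2 := (hBmem m hm).2.1
      split_ifs with h5
      · have := hP1 m
        have h6 : 0 ≤ lp (v m) / l := div_nonneg (hlp0 m) hl.le
        linarith
      · have h6 := hPl m h2 (hY m h2 (not_le.1 h5))
        linarith
    refine (Finset.sum_le_sum h1).trans ?_
    rw [Finset.sum_add_distrib, ← Finset.sum_div, ← Finset.sum_filter, Finset.sum_const,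
      nsmul_eq_mul, mul_one]
    linarith
  have st5 : |∑ m ∈ G, (P m - S * (1 / Real.log (v m))) -
      1 / (2 * l) * ∑ m ∈ G, (lp (v m) - S)| ≤ g / (2 * l ^ 2) * ∑ m ∈ G, (lp (v m) + S) := by
    rw [Finset.mul_sum, Finset.mul_sum, ← Finset.sum_sub_distrib]
    refine (Finset.abs_sum_le_sum_abs _ _).trans (Finset.sum_le_sum fun m hm => ?_)
    have h1 := hGmem m hm
    obtain ⟨h2, h3⟩ := hgood m h1.1.1 h1.1.2 h1.2.2
    have h4 := hPl m h1.2.1 h2
    rw [hlp] at h4 ⊢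
    obtain ⟨W, hW⟩ : ∃ W, W = Real.log (v m) := ⟨_, rfl⟩
    rw [← hW] at h2 h3 h4 ⊢
    have hW0 : 0 < W := by linarith
    have e1 : P m - S * (1 / W) - 1 / (2 * l) * (P m * W - S) =
        -(P m / (2 * l)) * (W - 2 * l) + S / (2 * l * W) * (W - 2 * l) := by
      field_simp
      ring
    rw [e1]
    refine (abs_add_le _ _).trans ?_
    rw [abs_mul, abs_mul, abs_neg, abs_of_nonneg (div_nonneg (hP0 m) (by positivity)),
      abs_of_nonneg (div_nonneg hS (by positivity))]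
    have e2 : P m / (2 * l) * |W - 2 * l| ≤ (P m * W / l) / (2 * l) * g := by
      have := hP0 m
      gcongr
    have e3 : S / (2 * l * W) * |W - 2 * l| ≤ S / (2 * l * l) * g := by
      gcongr
    have e4 : (P m * W / l) / (2 * l) * g + S / (2 * l * l) * g =
        g / (2 * l ^ 2) * (P m * W + S) := by
      field_simp
    linarith
  have hMs : (A.card : ℝ) ≤ M := by
    have h1 : A.card ≤ (Icc 1 M).card := by
      rw [hA]
      exact Finset.card_filter_le _ _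
    rw [Nat.card_Icc] at h1
    have h2 : A.card ≤ M := by omega
    exact_mod_cast h2
  have hAcard : (A.card : ℝ) = B.card + G.card := by
    have := hsplit fun _ => 1
    simp only [Finset.sum_const, nsmul_eq_mul, mul_one] at this
    exact this
  have hlB0 : 0 ≤ ∑ m ∈ B, lp (v m) := Finset.sum_nonneg fun m _ => hlp0 m
  have hlAs := hsplit fun m => lp (v m)
  have st6 : ∑ m ∈ G, (lp (v m) + S) ≤ 2 * S * M + E := by
    rw [Finset.sum_add_distrib, Finset.sum_const, nsmul_eq_mul]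
    have h1 := (abs_le.1 hM).2
    have h2 : S * (A.card : ℝ) ≤ S * M := mul_le_mul_of_nonneg_left hMs hS
    have h3 : 0 ≤ S * (B.card : ℝ) := by positivity
    rw [hAcard] at h1 h2
    nlinarith
  have st7 : |∑ m ∈ G, (lp (v m) - S)| ≤ E + ∑ m ∈ B, lp (v m) + S * B.card := by
    rw [Finset.sum_sub_distrib, Finset.sum_const, nsmul_eq_mul]
    have h1 := abs_le.1 hM
    rw [hAcard, hlAs] at h1
    have h3 : 0 ≤ S * (B.card : ℝ) := by positivity
    rw [abs_le]
    constructor <;> nlinarith [h1.1, h1.2]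
  have st8 : ∑ m ∈ A, P m - S * ∑ m ∈ A, 1 / Real.log (v m) =
      (∑ m ∈ B, P m - S * ∑ m ∈ B, 1 / Real.log (v m)) +
        ∑ m ∈ G, (P m - S * (1 / Real.log (v m))) := by
    rw [hsplit P, hsplit fun m => 1 / Real.log (v m), Finset.sum_sub_distrib, ← Finset.mul_sum]
    ring
  have hBi0 : 0 ≤ ∑ m ∈ B, 1 / Real.log (v m) := by
    refine Finset.sum_nonneg fun m hm => ?_
    have h2 : (2 : ℝ) ≤ (v m : ℝ) := by exact_mod_cast (hBmem m hm).2.1
    have := Real.log_nonneg (by linarith : (1 : ℝ) ≤ (v m : ℝ))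
    positivity
  have hBP0 : 0 ≤ ∑ m ∈ B, P m := Finset.sum_nonneg fun m _ => hP0 m
  have st9 : |∑ m ∈ B, P m - S * ∑ m ∈ B, 1 / Real.log (v m)| ≤
      (∑ m ∈ B, lp (v m)) / l + n0 + S * (B.card / l + 2 * n0) := by
    have h1 : S * ∑ m ∈ B, 1 / Real.log (v m) ≤ S * (B.card / l + 2 * n0) :=
      mul_le_mul_of_nonneg_left st3 hS
    have h2 : 0 ≤ S * ∑ m ∈ B, 1 / Real.log (v m) := mul_nonneg hS hBi0
    have h3 : 0 ≤ (∑ m ∈ B, lp (v m)) / l + n0 := hBP0.trans st4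
    rw [abs_le]
    constructor <;> linarith
  have st10 : |∑ m ∈ G, (P m - S * (1 / Real.log (v m)))| ≤
      1 / (2 * l) * (E + ∑ m ∈ B, lp (v m) + S * B.card) +
        g / (2 * l ^ 2) * (2 * S * M + E) := by
    have h1 : |1 / (2 * l) * ∑ m ∈ G, (lp (v m) - S)| ≤
        1 / (2 * l) * (E + ∑ m ∈ B, lp (v m) + S * B.card) := by
      rw [abs_mul, abs_of_nonneg (by positivity : 0 ≤ 1 / (2 * l))]
      exact mul_le_mul_of_nonneg_left st7 (by positivity)
    have h2 : g / (2 * l ^ 2) * ∑ m ∈ G, (lp (v m) + S) ≤ g / (2 * l ^ 2) * (2 * S * M + E) :=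
      mul_le_mul_of_nonneg_left st6 (by positivity)
    have h3 := abs_sub_abs_le_abs_sub (∑ m ∈ G, (P m - S * (1 / Real.log (v m))))
      (1 / (2 * l) * ∑ m ∈ G, (lp (v m) - S))
    linarith
  rw [st8]
  refine (abs_add_le _ _).trans ?_
  have f1 : (∑ m ∈ B, lp (v m)) / l + n0 + S * (B.card / l + 2 * n0) +
      (1 / (2 * l) * (E + ∑ m ∈ B, lp (v m) + S * B.card) +
        g / (2 * l ^ 2) * (2 * S * M + E)) =
      g / (2 * l ^ 2) * (2 * S * M + E) + E / (2 * l) +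
        3 / (2 * l) * (∑ m ∈ B, lp (v m) + S * B.card) + (1 + 2 * S) * n0 := by
    field_simp
    ring
  have f2 : ∑ m ∈ B, lp (v m) + S * B.card ≤ 2 * E + S * (2 * D + 2 * q + 1) := by
    have := mul_le_mul_of_nonneg_left st2 hS
    linarith
  have f3 := mul_le_mul_of_nonneg_left f2 (by positivity : 0 ≤ 3 / (2 * l))
  linarith

end

end Pool.Agent.N765.QU
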